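import Pool.Agent.Helper50.HY.Stmts
import Pool.Agent.Helper81.LN.MVP
import Pool.Agent.Helper24.LN.PHA
import Pool.Agent.Helper49.LN.PHB
import Pool.Agent.Helper33.LN.PHC
import Pool.Agent.Helper34.LN.KK

/-!
# Row NWT: Newton's theorem for smooth radial densities
-/

set_option autoImplicit false

namespace Pool.Agent.Helper34.HY

open MeasureTheory Filter Topology Set Pool.Agent.Helper95 Pool.Agent.Helper95.PW Pool.Agent.Helper95.LN
open Pool.Agent.Helper50.HY Pool.Agent.Helper81.LN Pool.Agent.Helper34.LN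

/-- the square of the length -/
noncomputable def nS (y : R3) : ℝ := y 0 ^ 2 + y 1 ^ 2 + y 2 ^ 2

theorem nS_nr (y : R3) : nr y ^ 2 = nS y := by
  unfold nr nS
  rw [Real.sq_sqrt (by positivity)]

theorem nS_smooth : ContDiff ℝ (⊤ : ℕ∞) nS := by
  unfold nS
  fun_prop

theorem nS_pd (i : Fin 3) (y : R3) : pd i nS y = 2 * y i := by
  have h : ∀ j : Fin 3, HasFDerivAt (fun y : R3 => y j ^ 2)
      ((2 * y j) • (ContinuousLinearMap.proj j : R3 →L[ℝ] ℝ)) y := by
    intro j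
    have h1 := (hasFDerivAt_apply (𝕜 := ℝ) (F' := fun _ : Fin 3 => ℝ) j y).pow 2
    simpa using h1
  have h2 : HasFDerivAt nS ((2 * y 0) • (ContinuousLinearMap.proj 0 : R3 →L[ℝ] ℝ) +
      (2 * y 1) • (ContinuousLinearMap.proj 1 : R3 →L[ℝ] ℝ) +
      (2 * y 2) • (ContinuousLinearMap.proj 2 : R3 →L[ℝ] ℝ)) y := ((h 0).add (h 1)).add (h 2)
  unfold pd
  rw [h2.fderiv]
  fin_cases i <;> simp

theorem n_fd (L : R3 →L[ℝ] ℝ) (y : R3) : L y = ∑ i, y i * L (Pi.single i 1) := by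
  conv_lhs => rw [← Finset.univ_sum_single y]
  rw [map_sum]
  refine Finset.sum_congr rfl fun i _ => ?_
  have h : (Pi.single i (y i) : R3) = y i • Pi.single i (1 : ℝ) := by
    rw [← Pi.single_smul, smul_eq_mul, mul_one]
  rw [h, map_smul, smul_eq_mul]

/-- the radial potential -/
noncomputable def nG (q : ℝ → ℝ) (R : ℝ) (t : ℝ) : ℝ := ∫ v in (R ^ 2)..t, q v ^ 2

theorem nG_deriv {q : ℝ → ℝ} (hq : ContDiff ℝ (⊤ : ℕ∞) q) (R t : ℝ) :
    HasDerivAt (nG q R) (q t ^ 2) t :=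
  ((hq.continuous.pow 2).integral_hasStrictDerivAt (R ^ 2) t).hasDerivAt

theorem nG_smooth {q : ℝ → ℝ} (hq : ContDiff ℝ (⊤ : ℕ∞) q) (R : ℝ) :
    ContDiff ℝ (⊤ : ℕ∞) (nG q R) := by
  rw [contDiff_infty_iff_deriv]
  refine ⟨fun t => (nG_deriv hq R t).differentiableAt, ?_⟩
  have h : deriv (nG q R) = fun t => q t ^ 2 := by
    funext t
    exact (nG_deriv hq R t).deriv
  rw [h]
  exact hq.pow 2

theorem nG_zero {q : ℝ → ℝ} {R : ℝ} (hq0 : ∀ t, R ^ 2 ≤ t → q t = 0) {t : ℝ} (ht : R ^ 2 ≤ t) :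
    nG q R t = 0 := by
  unfold nG
  have h : ∫ v in (R ^ 2)..t, q v ^ 2 = ∫ _v in (R ^ 2)..t, (0 : ℝ) := by
    apply intervalIntegral.integral_congr
    intro v hv
    rw [uIcc_of_le ht] at hv
    show q v ^ 2 = 0
    rw [hq0 v hv.1]
    norm_num
  rw [h, intervalIntegral.integral_zero]

/-- the vector field potential -/
noncomputable def nF (q : ℝ → ℝ) (R : ℝ) (y : R3) : ℝ := nG q R (nS y) / 2

theorem nF_smooth {q : ℝ → ℝ} (hq : ContDiff ℝ (⊤ : ℕ∞) q) (R : ℝ) :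
    ContDiff ℝ (⊤ : ℕ∞) (nF q R) :=
  ((nG_smooth hq R).comp nS_smooth).div_const 2

theorem nF_zero {q : ℝ → ℝ} {R : ℝ} (hR : 0 < R) (hq0 : ∀ t, R ^ 2 ≤ t → q t = 0) {y : R3}
    (hy : R < nr y) : nF q R y = 0 := by
  unfold nF
  rw [nG_zero hq0, zero_div]
  rw [← nS_nr]
  nlinarith

theorem nF_pd {q : ℝ → ℝ} (hq : ContDiff ℝ (⊤ : ℕ∞) q) (R : ℝ) (i : Fin 3) (y : R3) :
    pd i (nF q R) y = q (nS y) ^ 2 * y i := by
  have h1 : HasFDerivAt nS (fderiv ℝ nS y) y :=
    (nS_smooth.differentiable (by simp) y).hasFDerivAt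
  have h2 : HasFDerivAt (fun y => nG q R (nS y)) ((q (nS y) ^ 2) • fderiv ℝ nS y) y :=
    (nG_deriv hq R (nS y)).comp_hasFDerivAt y h1
  have h3 : HasFDerivAt (nF q R) ((1 / 2 : ℝ) • ((q (nS y) ^ 2) • fderiv ℝ nS y)) y := by
    have h4 := h2.const_smul (1 / 2 : ℝ)
    have h5 : nF q R = (fun y => (1 / 2 : ℝ) • nG q R (nS y)) := by
      funext z
      unfold nF
      rw [smul_eq_mul]
      ring
    rw [h5]
    exact h4
  have h4 : pd i (nF q R) y = (1 / 2 : ℝ) * (q (nS y) ^ 2 * pd i nS y) := by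
    unfold pd
    rw [h3.fderiv]
    rfl
  rw [h4, nS_pd]
  ring

theorem n_pd_scale {g : R3 → ℝ} (t : ℝ) (i : Fin 3) (y : R3) :
    pd i (fun y => g (t • y)) y = t * pd i g (t • y) := by
  unfold pd
  rw [fderiv_comp_smul]
  rfl

/-- the derivative of the mean vanishes -/
theorem n_zero {q : ℝ → ℝ} (hq : ContDiff ℝ (⊤ : ℕ∞) q) {R : ℝ} (hR : 0 < R)
    (hq0 : ∀ t, R ^ 2 ≤ t → q t = 0) {h : R3 → ℝ} (hh : ContDiff ℝ (⊤ : ℕ∞) h)
    (hl : ∀ w, nr w ≤ R → lap h w = 0) {t : ℝ} (ht0 : 0 ≤ t) (ht1 : t ≤ 1) :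
    ∫ y, q (nS y) ^ 2 * ∑ i, y i * pd i h (t • y) = 0 := by
  have hFs := nF_smooth hq R
  have hFc : HasCompactSupport (nF q R) := mvp_cs 0 R fun w hw => by
    rw [sub_zero] at hw
    exact nF_zero hR hq0 hw
  have hsc : ∀ g : R3 → ℝ, ContDiff ℝ (⊤ : ℕ∞) g → ContDiff ℝ (⊤ : ℕ∞) fun y : R3 => g (t • y) :=
    fun g hg => hg.comp (contDiff_const_smul t)
  have hint : ∀ u v : R3 → ℝ, ContDiff ℝ (⊤ : ℕ∞) u → ContDiff ℝ (⊤ : ℕ∞) v →
      HasCompactSupport v → Integrable (fun w => u w * v w) := fun u v hu hv hvc =>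
    (hu.continuous.mul hv.continuous).integrable_of_hasCompactSupport hvc.mul_left
  have key : ∀ i : Fin 3, ∫ y, pd i h (t • y) * pd i (nF q R) y =
      -∫ y, (t * pd i (pd i h) (t • y)) * nF q R y := by
    intro i
    have s1 := hsc _ (mvp_pd_smooth hh i)
    have e1 : pd i (fun y => pd i h (t • y)) = fun y => t * pd i (pd i h) (t • y) := by
      funext y
      exact n_pd_scale t i y
    have h1 : ∫ y, pd i h (t • y) * pd i (nF q R) y =
        -∫ y, pd i (fun y => pd i h (t • y)) y * nF q R y :=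
      integral_mul_fderiv_eq_neg_fderiv_mul_of_integrable (μ := (volume : Measure R3))
        (f := fun y => pd i h (t • y)) (g := nF q R) (v := Pi.single i 1)
        (hint _ _ (mvp_pd_smooth s1 i) hFs hFc)
        (hint _ _ s1 (mvp_pd_smooth hFs i) (mvp_pd_cs hFc i))
        (hint _ _ s1 hFs hFc)
        (fun x _ => s1.differentiable (by simp) x)
        (fun x _ => hFs.differentiable (by simp) x)
    rw [h1, e1]
  have e2 : (fun y : R3 => q (nS y) ^ 2 * ∑ i, y i * pd i h (t • y)) =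
      fun y => ∑ i, pd i h (t • y) * pd i (nF q R) y := by
    funext y
    rw [Finset.mul_sum]
    refine Finset.sum_congr rfl fun i _ => ?_
    rw [nF_pd hq]
    ring
  rw [e2, integral_finsetSum _ fun i _ =>
    hint _ _ (hsc _ (mvp_pd_smooth hh i)) (mvp_pd_smooth hFs i) (mvp_pd_cs hFc i)]
  have e3 : ∀ i : Fin 3, ∫ y, pd i h (t • y) * pd i (nF q R) y =
      -∫ y, (t * pd i (pd i h) (t • y)) * nF q R y := key
  rw [Finset.sum_congr rfl fun i _ => e3 i, Finset.sum_neg_distrib, ← integral_finsetSum _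
    fun i _ => hint _ _ (contDiff_const.mul (hsc _ (mvp_pd_smooth (mvp_pd_smooth hh i) i)))
      hFs hFc]
  have e4 : (fun y : R3 => ∑ i, (t * pd i (pd i h) (t • y)) * nF q R y) = fun _ => 0 := by
    funext y
    have e5 : ∑ i, (t * pd i (pd i h) (t • y)) * nF q R y = t * lap h (t • y) * nF q R y := by
      unfold lap
      rw [Finset.mul_sum, Finset.sum_mul]
    rw [e5]
    rcases le_or_gt (nr y) R with hy | hy
    · have h6 : nr (t • y) ≤ R := by
        have h7 : nr (t • y) = t * nr y := by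
          rw [kk_nr, kk_nr, WithLp.toLp_smul, norm_smul, Real.norm_of_nonneg ht0]
        rw [h7]
        have := mvp_nr0 y
        nlinarith
      rw [hl _ h6]
      ring
    · rw [nF_zero hR hq0 hy, mul_zero]
  rw [e4, integral_zero, neg_zero]

/-- the mean value property for radial densities -/
theorem n_mean {q : ℝ → ℝ} (hq : ContDiff ℝ (⊤ : ℕ∞) q) {R : ℝ} (hR : 0 < R)
    (hq0 : ∀ t, R ^ 2 ≤ t → q t = 0) {h : R3 → ℝ} (hh : ContDiff ℝ (⊤ : ℕ∞) h)
    (hl : ∀ w, nr w ≤ R → lap h w = 0) {B : ℝ} (hB : ∀ i y, |pd i h y| ≤ B) :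
    ∫ y, q (nS y) ^ 2 * h y = (∫ y, q (nS y) ^ 2) * h 0 := by
  have hq2 : Continuous fun y : R3 => q (nS y) ^ 2 :=
    (hq.continuous.comp nS_smooth.continuous).pow 2
  have hqc : HasCompactSupport fun y : R3 => q (nS y) ^ 2 := mvp_cs 0 R fun w hw => by
    rw [sub_zero] at hw
    show q (nS w) ^ 2 = 0
    rw [hq0 (nS w) (by rw [← nS_nr]; nlinarith)]
    norm_num
  have hd : ∀ t : ℝ, HasDerivAt (fun t : ℝ => ∫ y, q (nS y) ^ 2 * h (t • y))
      (∫ y, q (nS y) ^ 2 * ∑ i, y i * pd i h (t • y)) t := by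
    intro t
    have hc1 : ∀ s : ℝ, Continuous fun y : R3 => q (nS y) ^ 2 * h (s • y) := fun s =>
      hq2.mul (hh.continuous.comp (continuous_const_smul s))
    have hc2 : Continuous fun y : R3 => q (nS y) ^ 2 * ∑ i, y i * pd i h (t • y) := by
      refine hq2.mul (continuous_finsetSum _ fun i _ => (continuous_apply i).mul ?_)
      exact (mvp_pd_smooth hh i).continuous.comp (continuous_const_smul t)
    have hc3 : Continuous fun y : R3 => q (nS y) ^ 2 * ∑ i, |y i| * B :=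
      hq2.mul (continuous_finsetSum _ fun i _ => (continuous_apply i).abs.mul continuous_const)
    refine (hasDerivAt_integral_of_dominated_loc_of_deriv_le (μ := (volume : Measure R3))
      (F := fun (t : ℝ) (y : R3) => q (nS y) ^ 2 * h (t • y))
      (F' := fun (t : ℝ) (y : R3) => q (nS y) ^ 2 * ∑ i, y i * pd i h (t • y))
      (bound := fun y => q (nS y) ^ 2 * ∑ i, |y i| * B) (s := Set.univ) (x₀ := t) Filter.univ_mem
      (Filter.Eventually.of_forall fun s => (hc1 s).aestronglyMeasurable)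
      ((hc1 t).integrable_of_hasCompactSupport hqc.mul_right) hc2.aestronglyMeasurable
      (Filter.Eventually.of_forall fun y s _ => ?_)
      (hc3.integrable_of_hasCompactSupport hqc.mul_right)
      (Filter.Eventually.of_forall fun y s _ => ?_)).2
    · rw [norm_mul, Real.norm_of_nonneg (sq_nonneg _)]
      apply mul_le_mul_of_nonneg_left _ (sq_nonneg _)
      refine (norm_sum_le _ _).trans (Finset.sum_le_sum fun i _ => ?_)
      rw [norm_mul, Real.norm_eq_abs, Real.norm_eq_abs]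
      exact mul_le_mul_of_nonneg_left (hB i _) (abs_nonneg _)
    · have h1 : HasFDerivAt h (fderiv ℝ h (s • y)) (s • y) :=
        (hh.differentiable (by simp) _).hasFDerivAt
      have h2 : HasDerivAt (fun s : ℝ => s • y) y s := by
        simpa using (hasDerivAt_id s).smul_const y
      have h3 := h1.comp_hasDerivAt s h2
      rw [n_fd] at h3
      exact h3.const_mul _
  have hcont : ContinuousOn (fun t : ℝ => ∫ y, q (nS y) ^ 2 * h (t • y)) (Icc 0 1) :=
    fun t _ => (hd t).continuousAt.continuousWithinAt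
  have h1 := constant_of_has_deriv_right_zero hcont (fun t ht => by
    have h2 := (hd t).hasDerivWithinAt (s := Ici t)
    rw [n_zero hq hR hq0 hh hl ht.1 ht.2.le] at h2
    exact h2) 1 (right_mem_Icc.2 zero_le_one)
  simp only [one_smul, zero_smul] at h1
  rw [h1, integral_mul_const]

theorem NWT : ST_NWT := by
  intro q R hq hR hq0 a p hap
  have hA : ST_PHA := Pool.Agent.Helper24.LN.PHA
  have hBB : ST_PHB := Pool.Agent.Helper49.LN.PHB hA
  have hCC : ST_PHC := Pool.Agent.Helper33.LN.PHC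
  obtain ⟨P, hP⟩ : ∃ P : R3, P = p - a := ⟨_, rfl⟩
  rw [← hP] at hap ⊢
  obtain ⟨b, hb⟩ : ∃ b : ℝ, b = nr P - R := ⟨_, rfl⟩
  have hb0 : 0 < b := by rw [hb]; linarith
  obtain ⟨p1, p2, -, -, -⟩ := hA b hb0
  obtain ⟨q1, q2, -, -⟩ := hBB b hb0
  obtain ⟨-, -, r3, -, -, -⟩ := hCC.2.2.2 b hb0
  have hs : ContDiff ℝ (⊤ : ℕ∞) (fun w : R3 => ph b (w - P)) := mvp_tr_smooth p1 P
  have hfar : ∀ w, nr w ≤ R → b ≤ nr (w - P) := by
    intro w hw
    have := kk_tri w P
    rw [hb]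
    linarith
  have hl : ∀ w, nr w ≤ R → lap (fun w : R3 => ph b (w - P)) w = 0 := by
    intro w hw
    rw [mvp_lap_tr, q1, r3 _ (hfar w hw), neg_zero]
  have hm := n_mean hq hR hq0 hs hl (B := 4 / b ^ 2) (fun i y => by
    rw [mvp_pd_tr]
    exact q2 i (y - P))
  have e0 : ph b (0 - P) = 1 / nr P := by
    rw [p2 _ (hfar 0 (by
      have : nr 0 = 0 := by unfold nr; simp
      rw [this]; exact hR.le)), kk_neg]
  rw [e0] at hm
  have e1 : ∫ y, q (nr (y - a) ^ 2) ^ 2 / nr (y - p) = ∫ y, q (nS y) ^ 2 / nr (y - P) := by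
    rw [← integral_sub_right_eq_self (fun y => q (nS y) ^ 2 / nr (y - P)) a]
    congr 1
    funext y
    rw [nS_nr, hP, sub_sub, add_sub_cancel]
  have e2 : ∫ y, q (nr (y - a) ^ 2) ^ 2 = ∫ y, q (nS y) ^ 2 := by
    rw [← integral_sub_right_eq_self (fun y => q (nS y) ^ 2) a]
    congr 1
    funext y
    rw [nS_nr]
  have e3 : ∫ y, q (nS y) ^ 2 / nr (y - P) = ∫ y, q (nS y) ^ 2 * ph b (y - P) := by
    congr 1
    funext y
    rcases le_or_gt (nr y) R with hy | hy
    · rw [p2 _ (hfar y hy), mul_one_div]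
    · rw [hq0 (nS y) (by rw [← nS_nr]; nlinarith)]
      ring
  rw [e1, e2, e3, hm, mul_one_div]

end Pool.Agent.Helper34.HY
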